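import Pool.Agent.Y344.HD.Many
import Pool.Agent.W854.FA.Hall
import Pool.Agent.TH669.PT.Main

set_option autoImplicit false

/-!
# Fixed `lam`: fixed-point-free automorphisms of prime power order
-/

namespace Pool.Agent.Y344.HD

open Finset Pool.Agent.H951R4.OD Pool.Agent.H634R3.AA Filter Topology

/-- a fixed-point-free automorphism of order a power of a small prime -/
theorem keOf {v k lam Q : ℕ} {ε : ℝ} {B : Fin v → Finset (Fin v)} (hk : 2 ≤ k) (hkv : k < v)
    (hsize : ∀ i, (B i).card = k)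
    (hpair : ∀ x y : Fin v, x ≠ y →
      (Finset.univ.filter (fun i => x ∈ B i ∧ y ∈ B i)).card = lam)
    {σ : Equiv.Perm (Fin v)} (haut : ∀ i, ∃ j, (B i).image σ = B j) {q b : ℕ} (hq : q.Prime)
    (hsm : (q : ℝ) ≤ (k : ℝ) ^ (1 - ε) ∨ q ≤ Q)
    (hord : orderOf σ = q ^ b) (hfree : ∀ x, σ x ≠ x) :
    Pool.Agent.W854.FA.KE lam Q ε k := by
  have hF : Fact q.Prime := ⟨hq⟩
  have hpow : σ ^ (q ^ b) = 1 := by rw [← hord]; exact pow_orderOf_eq_one σ
  have h0 : (univ.filter (fun x : Fin v => σ x = x)) = ∅ := by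
    rw [Finset.filter_eq_empty_iff]
    intro x _
    exact hfree x
  have h1 := Equiv.Perm.card_compl_support_modEq (p := q) (n := b) hpow
  have h2 : (Equiv.Perm.support σ)ᶜ = univ.filter (fun x : Fin v => σ x = x) := by
    ext x
    simp
  rw [h2, h0, Finset.card_empty, Fintype.card_fin] at h1
  have h3 : q ∣ v := (Nat.modEq_zero_iff_dvd.1 h1.symm)
  refine ⟨hk, v, B, σ, q, b, hkv, hsize, hpair, haut, hq, ?_, hpow, by rw [h0]; simp⟩
  rcases hsm with h | h
  · exact Or.inl ⟨h3, h⟩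
  · exact Or.inr h

/-- transitive group with a cyclic Sylow subgroup for a prime divisor of the degree -/
theorem exists_of_cyclic {v : ℕ} (H : Subgroup (Equiv.Perm (Fin v)))
    (htr : ∀ x y : Fin v, ∃ h ∈ H, h x = y) {q : ℕ} (hq : q.Prime) (hqv : q ∣ v)
    (P : Sylow q H) (hP : IsCyclic P) :
    ∃ h ∈ H, (∃ b, orderOf h = q ^ b) ∧ ∀ y, h y ≠ y := by
  have hF : Fact q.Prime := ⟨hq⟩
  have hact : ∀ (h : H) (i : Fin v), h • i = (h : Equiv.Perm (Fin v)) i := fun _ _ => rfl
  have hpre : MulAction.IsPretransitive H (Fin v) := by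
    refine ⟨fun i j => ?_⟩
    obtain ⟨h, hh, hij⟩ := htr i j
    exact ⟨⟨h, hh⟩, hij⟩
  obtain ⟨g, hg⟩ := hP.exists_generator
  refine ⟨((g : H) : Equiv.Perm (Fin v)), (g : H).2, ?_, fun y hy => ?_⟩
  · obtain ⟨b, hb⟩ := (IsPGroup.iff_orderOf.1 P.isPGroup') g
    refine ⟨b, ?_⟩
    rw [Subgroup.orderOf_coe, Subgroup.orderOf_coe]
    exact hb
  · have hle : (P : Subgroup H) ≤ MulAction.stabilizer H y := by
      intro p hp
      obtain ⟨n, hn⟩ := hg ⟨p, hp⟩
      have h1 : ((g : H)) ^ n = p := by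
        have := congrArg (fun z : P => (z : H)) hn
        simpa using this
      rw [← h1]
      exact (MulAction.stabilizer H y).zpow_mem (by
        rw [MulAction.mem_stabilizer_iff]
        exact hy) n
    have hcard := Nat.card_congr (MulAction.orbitProdStabilizerEquivGroup H y)
    rw [Nat.card_prod, MulAction.orbit_eq_univ H y, Nat.card_congr (Equiv.Set.univ (Fin v)),
      Nat.card_fin] at hcard
    have h2 : Nat.card (P : Subgroup H) ∣ Nat.card (MulAction.stabilizer H y) :=
      Subgroup.card_dvd_of_le hle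
    have h3 : Nat.card (P : Subgroup H) = q ^ (Nat.card H).factorization q :=
      P.card_eq_multiplicity
    have h4 : q ^ ((Nat.card H).factorization q + 1) ∣ Nat.card H := by
      rw [pow_succ, ← h3, ← hcard, mul_comm]
      exact mul_dvd_mul hqv h2
    have h5 := (hq.pow_dvd_iff_le_factorization Nat.card_pos.ne').1 h4
    omega

end Pool.Agent.Y344.HD
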