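import Pool.Agent.H177R2.SD.Small
import Pool.Agent.H951R4.OD.F1
import Pool.Agent.H634R3.AA.Small

set_option autoImplicit false

/-!
# The values of the quadratic polynomial `fl lam` have many small prime factors
-/

namespace Pool.Agent.Y344.HD

open Finset Pool.Agent.H951R4.OD Pool.Agent.H634R3.AA Filter Topology

/-- primes `q = 1` modulo `q0` with large sum of the reciprocals -/
theorem primes_one (q0 : ℕ) (hq0 : 0 < q0) (B : ℕ) (L : ℝ) :
    ∃ K : Finset ℕ, (∀ p ∈ K, p.Prime ∧ B < p ∧ p ≡ 1 [MOD q0]) ∧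
      L ≤ ∑ p ∈ K, 1 / (p : ℝ) := by
  have : NeZero q0 := ⟨hq0.ne'⟩
  have hns := Pool.Agent.Helper591.APRec.not_summable_g (q := q0) (a := 1) isUnit_one
  rw [not_summable_iff_tendsto_nat_atTop_of_nonneg
    (fun n => Pool.Agent.Helper591.APRec.g_nonneg _ n)] at hns
  obtain ⟨N, hN⟩ := (hns.eventually_ge_atTop
    (L + ∑ n ∈ range (B + 1), Pool.Agent.Helper591.APRec.g (1 : ZMod q0) n)).exists
  refine ⟨(range N \ range (B + 1)).filter (fun p : ℕ => p.Prime ∧ (p : ZMod q0) = 1),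
    ?_, ?_⟩
  · intro p hp
    simp only [mem_filter, Finset.mem_sdiff, mem_range] at hp
    obtain ⟨⟨-, hpB⟩, hpp, hpe⟩ := hp
    refine ⟨hpp, by omega, ?_⟩
    rw [← Nat.cast_one] at hpe
    exact (ZMod.natCast_eq_natCast_iff p 1 q0).1 hpe
  · have h1 : ∑ p ∈ (range N \ range (B + 1)).filter
        (fun p : ℕ => p.Prime ∧ (p : ZMod q0) = 1), 1 / (p : ℝ) =
        ∑ p ∈ range N \ range (B + 1), Pool.Agent.Helper591.APRec.g (1 : ZMod q0) p := by
      rw [sum_filter]
      rfl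
    rw [h1]
    have h2 : ∑ p ∈ range N, Pool.Agent.Helper591.APRec.g (1 : ZMod q0) p ≤
        ∑ p ∈ range N \ range (B + 1), Pool.Agent.Helper591.APRec.g (1 : ZMod q0) p +
        ∑ p ∈ range (B + 1), Pool.Agent.Helper591.APRec.g (1 : ZMod q0) p := by
      rw [← sum_union sdiff_disjoint]
      refine sum_le_sum_of_subset_of_nonneg ?_ ?_
      · intro x hx
        by_cases h : x ∈ range (B + 1)
        · exact mem_union_right _ h
        · exact mem_union_left _ (Finset.mem_sdiff.2 ⟨hx, h⟩)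
      · intro i _ _
        exact Pool.Agent.Helper591.APRec.g_nonneg _ _
    linarith

/-- `1` if `q` does not divide `fl lam n`, `0` otherwise -/
noncomputable def nd (lam q n : ℕ) : ℝ := if (q : ℤ) ∣ fl lam n then 0 else 1

theorem nd_mem (lam q n : ℕ) : 0 ≤ nd lam q n ∧ nd lam q n ≤ 1 := by
  unfold nd
  split_ifs <;> norm_num

theorem nd_per {lam : ℕ} (hlam : 1 ≤ lam) (q n : ℕ) : nd lam q (n + q) = nd lam q n := by
  unfold nd
  have h1 := (pol_fl lam hlam).per q n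
  have h2 : (q : ℤ) ∣ fl lam (n + q) ↔ (q : ℤ) ∣ fl lam n := by
    constructor
    · intro h
      have := dvd_sub h h1
      simpa using this
    · intro h
      have := dvd_add h h1
      simpa using this
  simp only [h2]

theorem nd_mean {lam : ℕ} (hlam : 1 ≤ lam) {q : ℕ} (hq : q.Prime) (hqc : ¬ q ∣ cl lam)
    (hch : ch (1 - 4 * (lam : ℤ)) q = 1) :
    (∑ n ∈ range q, nd lam q n) / (q : ℝ) ≤ Real.exp (-(1 / (q : ℝ))) := by
  have hq0 : (0 : ℝ) < q := by exact_mod_cast hq.pos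
  have h1 := (pol_fl lam hlam).cnt q hq hqc
  rw [hch] at h1
  have h2 : ∑ n ∈ range q, nd lam q n = (q : ℝ) - 2 := by
    unfold nd
    have h3 : ∑ n ∈ range q, (if (q : ℤ) ∣ fl lam n then (0 : ℝ) else 1) =
        ∑ n ∈ range q, (1 - (if (q : ℤ) ∣ fl lam n then (1 : ℝ) else 0)) := by
      refine Finset.sum_congr rfl fun n _ => ?_
      split_ifs <;> norm_num
    rw [h3, Finset.sum_sub_distrib, Finset.sum_const, card_range, nsmul_eq_mul, mul_one,
      ← Finset.sum_filter, Finset.sum_const, nsmul_eq_mul, mul_one, h1]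
    norm_num
  rw [h2]
  have h4 : ((q : ℝ) - 2) / q ≤ 1 + -(1 / (q : ℝ)) := by
    rw [div_le_iff₀ hq0]
    field_simp
    linarith
  refine h4.trans ?_
  have := Real.add_one_le_exp (-(1 / (q : ℝ)))
  linarith

theorem good_prime {lam : ℕ} (hlam : 1 ≤ lam) {p : ℕ} (hp : p.Prime)
    (h : p ≡ 1 [MOD (4 * (1 - 4 * (lam : ℤ)).natAbs * cl lam)]) :
    ¬ p ∣ cl lam ∧ ch (1 - 4 * (lam : ℤ)) p = 1 := by
  have hcl : 0 < cl lam := (pol_fl lam hlam).pos
  have h1 : p ≡ 1 [MOD (cl lam)] := Nat.ModEq.of_mul_left _ h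
  have h2 : p ≡ 1 [MOD (4 * (1 - 4 * (lam : ℤ)).natAbs)] := Nat.ModEq.of_mul_right _ h
  constructor
  · intro hd
    have h3 : p ≡ 1 [MOD p] := Nat.ModEq.of_dvd hd h1
    have h4 : p ∣ 1 := by
      have := (Nat.modEq_iff_dvd' (n := p) hp.one_lt.le).1 h3.symm
      have h5 : p ∣ p - 1 := this
      have h6 := Nat.dvd_sub (dvd_refl p) h5
      have h7 : p - (p - 1) = 1 := by have := hp.one_lt; omega
      rwa [h7] at h6
    exact hp.one_lt.ne' (Nat.dvd_one.1 h4)
  · have h3 := A1aux.ch_mod (1 - 4 * (lam : ℤ)) p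
    have h4 := A1aux.ch_mod (1 - 4 * (lam : ℤ)) 1
    have h5 : p % (4 * (1 - 4 * (lam : ℤ)).natAbs) = 1 % (4 * (1 - 4 * (lam : ℤ)).natAbs) := h2
    rw [← h3, h5, h4]
    unfold ch
    rw [if_pos (by norm_num), jacobiSym.one_right]
    norm_num

/-- one block of primes -/
theorem block {lam : ℕ} (hlam : 1 ≤ lam) (B : ℕ) (η : ℝ) (hη : 0 < η) :
    ∃ K : Finset ℕ, (∀ p ∈ K, p.Prime ∧ B < p ∧ ¬ p ∣ cl lam) ∧
      ∃ N0 : ℕ, ∀ X : ℕ, N0 ≤ X →
        (((range (X + 1)).filter (fun n => ∀ p ∈ K, ¬ (p : ℤ) ∣ fl lam n)).card : ℝ) ≤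
          η * X := by
  classical
  obtain ⟨L, hL⟩ : ∃ L : ℝ, Real.exp (-L) < η / 4 := by
    have h1 : Tendsto (fun L : ℝ => Real.exp (-L)) atTop (𝓝 0) :=
      Real.tendsto_exp_neg_atTop_nhds_zero
    exact (h1.eventually_lt_const (by positivity)).exists
  have hpos : 0 < 4 * (1 - 4 * (lam : ℤ)).natAbs * cl lam := by
    have h1 : 0 < cl lam := (pol_fl lam hlam).pos
    have h2 : 0 < (1 - 4 * (lam : ℤ)).natAbs := Int.natAbs_pos.2 (by omega)
    positivity
  obtain ⟨K, hK, hKL⟩ := primes_one _ hpos B L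
  refine ⟨K, fun p hp => ⟨(hK p hp).1, (hK p hp).2.1, (good_prime hlam (hK p hp).1
    (hK p hp).2.2).1⟩, ?_⟩
  obtain ⟨N0, hN0⟩ := exists_nat_gt (4 * (∏ p ∈ K, (p : ℝ) + 1) / η)
  refine ⟨N0 + 1, fun X hX => ?_⟩
  have hX1 : (1 : ℝ) ≤ X := by exact_mod_cast (by omega : 1 ≤ X)
  have havg := Pool.Agent.H177R2.SD.avg1 K (fun p => p) (fun p hp => (hK p hp).1.pos)
    (by
      intro p hp p' hp' hne
      exact (Nat.coprime_primes (hK p hp).1 (hK p' hp').1).2 hne)
    (fun p n => nd lam p n) (fun p _ n => nd_mem lam p n) (fun p _ n => nd_per hlam p n) 0 (X + 1)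
  have h2 := (abs_le.1 havg).2
  have hcard : (((range (X + 1)).filter (fun n => ∀ p ∈ K, ¬ (p : ℤ) ∣ fl lam n)).card : ℝ) =
      ∑ n ∈ Ico 0 (0 + (X + 1)), ∏ p ∈ K, nd lam p n := by
    rw [zero_add, ← range_eq_Ico, card_filter]
    push_cast
    refine Finset.sum_congr rfl fun n _ => ?_
    split_ifs with h
    · symm
      apply Finset.prod_eq_one
      intro p hp
      unfold nd
      rw [if_neg (h p hp)]
    · symm
      push Not at h
      obtain ⟨p, hp, hpd⟩ := h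
      apply Finset.prod_eq_zero hp
      unfold nd
      rw [if_pos hpd]
  have hprod : ∏ p ∈ K, ((∑ n ∈ range p, nd lam p n) / (p : ℝ)) ≤ Real.exp (-L) := by
    have h3 : ∏ p ∈ K, ((∑ n ∈ range p, nd lam p n) / (p : ℝ)) ≤
        ∏ p ∈ K, Real.exp (-(1 / (p : ℝ))) := by
      refine Finset.prod_le_prod (fun p _ => ?_) (fun p hp => ?_)
      · exact div_nonneg (Finset.sum_nonneg fun n _ => (nd_mem lam p n).1) (Nat.cast_nonneg p)
      · exact nd_mean hlam (hK p hp).1 (good_prime hlam (hK p hp).1 (hK p hp).2.2).1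
          (good_prime hlam (hK p hp).1 (hK p hp).2.2).2
    refine h3.trans ?_
    rw [← Real.exp_sum, Finset.sum_neg_distrib]
    exact Real.exp_le_exp.2 (by linarith)
  rw [hcard]
  have h4 : ∑ n ∈ Ico 0 (0 + (X + 1)), ∏ p ∈ K, nd lam p n ≤
      ((X + 1 : ℕ) : ℝ) * Real.exp (-L) + ∏ p ∈ K, (p : ℝ) := by
    have h5 : ((X + 1 : ℕ) : ℝ) * ∏ p ∈ K, ((∑ n ∈ range p, nd lam p n) / (p : ℝ)) ≤
        ((X + 1 : ℕ) : ℝ) * Real.exp (-L) := mul_le_mul_of_nonneg_left hprod (by positivity)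
    linarith
  refine h4.trans ?_
  have h6 : 4 * (∏ p ∈ K, (p : ℝ) + 1) / η < X := by
    have : ((N0 + 1 : ℕ) : ℝ) ≤ X := by exact_mod_cast hX
    push_cast at this
    linarith
  rw [div_lt_iff₀ hη] at h6
  push_cast
  have h7 : ((X : ℝ) + 1) * Real.exp (-L) ≤ (X + X) * (η / 4) := by
    have := Real.exp_pos (-L)
    apply mul_le_mul _ hL.le this.le (by positivity)
    linarith
  nlinarith

/-- more than `c` primes of a fixed finite set divide most values -/
theorem many {lam : ℕ} (hlam : 1 ≤ lam) (c : ℕ) : ∀ (B : ℕ) (η : ℝ), 0 < η →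
    ∃ K : Finset ℕ, (∀ p ∈ K, p.Prime ∧ B < p ∧ ¬ p ∣ cl lam) ∧
      ∃ N0 : ℕ, ∀ X : ℕ, N0 ≤ X →
        (((range (X + 1)).filter (fun n =>
          (K.filter (fun p : ℕ => (p : ℤ) ∣ fl lam n)).card ≤ c)).card : ℝ) ≤ η * X := by
  classical
  induction c with
  | zero =>
    intro B η hη
    obtain ⟨K, hK, N0, hN0⟩ := block hlam B η hη
    refine ⟨K, hK, N0, fun X hX => le_trans ?_ (hN0 X hX)⟩
    refine (Nat.cast_le (α := ℝ)).2 (card_le_card ?_)
    intro n hn
    rw [mem_filter] at hn ⊢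
    refine ⟨hn.1, fun p hp hd => ?_⟩
    have h1 := hn.2
    rw [Nat.le_zero, card_eq_zero, Finset.filter_eq_empty_iff] at h1
    exact h1 hp hd
  | succ c ih =>
    intro B η hη
    obtain ⟨K1, hK1, N1, hN1⟩ := ih B (η / 2) (by positivity)
    obtain ⟨K2, hK2, N2, hN2⟩ := block hlam (max B (K1.sup id)) (η / 2) (by positivity)
    have hdisj : Disjoint K1 K2 := by
      rw [Finset.disjoint_left]
      intro p h1 h2
      have h3 := Finset.le_sup (f := id) h1
      have h4 := (hK2 p h2).2.1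
      simp only [id] at h3
      have h5 := le_max_right B (K1.sup id)
      omega
    refine ⟨K1 ∪ K2, ?_, max N1 N2, fun X hX => ?_⟩
    · intro p hp
      rw [mem_union] at hp
      rcases hp with hp | hp
      · exact hK1 p hp
      · obtain ⟨a1, a2, a3⟩ := hK2 p hp
        exact ⟨a1, lt_of_le_of_lt (le_max_left _ _) a2, a3⟩
    · have e1 := hN1 X ((le_max_left _ _).trans hX)
      have e2 := hN2 X ((le_max_right _ _).trans hX)
      have hsub : (range (X + 1)).filter (fun n =>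
          ((K1 ∪ K2).filter (fun p : ℕ => (p : ℤ) ∣ fl lam n)).card ≤ c + 1) ⊆
          (range (X + 1)).filter (fun n =>
            (K1.filter (fun p : ℕ => (p : ℤ) ∣ fl lam n)).card ≤ c) ∪
          (range (X + 1)).filter (fun n => ∀ p ∈ K2, ¬ (p : ℤ) ∣ fl lam n) := by
        intro n hn
        rw [mem_filter] at hn
        rw [mem_union, mem_filter, mem_filter]
        by_cases h : ∀ p ∈ K2, ¬ (p : ℤ) ∣ fl lam n
        · exact Or.inr ⟨hn.1, h⟩
        · left
          refine ⟨hn.1, ?_⟩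
          push Not at h
          obtain ⟨p, hp, hpd⟩ := h
          have h1 := hn.2
          rw [filter_union, card_union_of_disjoint (disjoint_filter_filter hdisj)] at h1
          have h2 : 0 < (K2.filter (fun p : ℕ => (p : ℤ) ∣ fl lam n)).card :=
            card_pos.2 ⟨p, mem_filter.2 ⟨hp, hpd⟩⟩
          omega
      have h1 := (Nat.cast_le (α := ℝ)).2 ((card_le_card hsub).trans (card_union_le _ _))
      push_cast at h1
      linarith

end Pool.Agent.Y344.HD
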