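import Mathlib

set_option autoImplicit false

/-!
# Polarities of symmetric designs: counting arguments
-/

namespace Pool.Agent.Y344.HD

open Finset

/-- the data: a symmetric relation given by the neighbourhoods `C x`, with `k` neighbours of every
point and `lam` common neighbours of any two points -/
structure Sy (v k lam : ℕ) (C : Fin v → Finset (Fin v)) : Prop where
  size : ∀ x, (C x).card = k
  inter : ∀ x y, x ≠ y → (C x ∩ C y).card = lam
  symm : ∀ x y, y ∈ C x ↔ x ∈ C y

/-- the absolute points -/
def Ab {v : ℕ} (C : Fin v → Finset (Fin v)) : Finset (Fin v) := univ.filter (fun x => x ∈ C x)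

/-- an involution argument -/
theorem even_of_symm {v : ℕ} (S : Finset (Fin v × Fin v)) (h : ∀ p ∈ S, (p.2, p.1) ∈ S) :
    (S.card + (S.filter (fun p => p.1 = p.2)).card) % 2 = 0 := by
  classical
  have h0 : ∑ _p ∈ S.filter (fun p => ¬ p.1 = p.2), (1 : ZMod 2) = 0 := by
    refine Finset.sum_involution (fun p _ => (p.2, p.1)) ?_ ?_ ?_ ?_
    · intro p _
      decide
    · intro p hp _ heq
      rw [mem_filter] at hp
      apply hp.2
      have := congrArg Prod.fst heq
      exact this.symm
    · intro p hp
      rw [mem_filter] at hp ⊢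
      exact ⟨h p hp.1, fun he => hp.2 he.symm⟩
    · intro p _
      rfl
  rw [Finset.sum_const, nsmul_eq_mul, mul_one] at h0
  have h1 : (S.filter (fun p => ¬ p.1 = p.2)).card % 2 = 0 := by
    have := (ZMod.natCast_eq_zero_iff _ 2).1 h0
    omega
  have h2 := Finset.card_filter_add_card_filter_not (s := S) (fun p => p.1 = p.2)
  omega

section

variable {v k lam : ℕ} {C : Fin v → Finset (Fin v)}

/-- parity of the number of absolute points on a block whose point is not absolute -/
theorem parity (h : Sy v k lam C) {x : Fin v} (hx : x ∉ C x) :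
    (C x ∩ Ab C).card % 2 = (lam * k) % 2 := by
  classical
  obtain ⟨S, hS⟩ : ∃ S : Finset (Fin v × Fin v),
    S = (C x ×ˢ C x).filter (fun p => p.2 ∈ C p.1) := ⟨_, rfl⟩
  have h1 := even_of_symm S (by
    intro p hp
    rw [hS, mem_filter, mem_product] at hp ⊢
    exact ⟨⟨hp.1.2, hp.1.1⟩, (h.symm _ _).1 hp.2⟩)
  have h2 : S.card = lam * k := by
    rw [hS, card_filter, sum_product]
    have : ∀ y ∈ C x, ∑ z ∈ C x, (if z ∈ C y then 1 else 0) = lam := by
      intro y hy
      rw [← card_filter]
      have hxy : x ≠ y := by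
        rintro rfl
        exact hx hy
      rw [← h.inter x y hxy, Finset.filter_mem_eq_inter]
    rw [Finset.sum_congr rfl this, Finset.sum_const, h.size, smul_eq_mul, mul_comm]
  have h3 : (S.filter (fun p => p.1 = p.2)).card = (C x ∩ Ab C).card := by
    symm
    refine Finset.card_bij (fun y _ => (y, y)) ?_ ?_ ?_
    · intro y hy
      rw [mem_inter, Ab, mem_filter] at hy
      rw [mem_filter, hS, mem_filter, mem_product]
      exact ⟨⟨⟨hy.1, hy.1⟩, hy.2.2⟩, rfl⟩
    · intro y _ z _ hyz
      exact congrArg Prod.fst hyz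
    · rintro ⟨y, z⟩ hp
      rw [mem_filter, hS, mem_filter, mem_product] at hp
      obtain ⟨⟨⟨a1, a2⟩, a3⟩, a4⟩ := hp
      simp only at a1 a2 a3 a4
      subst a4
      exact ⟨y, mem_inter.2 ⟨a1, mem_filter.2 ⟨mem_univ _, a3⟩⟩, rfl⟩
  rw [h2, h3] at h1
  omega

/-- `lam (v - 1) = k (k - 1)` -/
theorem count (h : Sy v k lam C) (hv : 1 ≤ v) : k * k = lam * (v - 1) + k := by
  classical
  have x : Fin v := ⟨0, hv⟩
  have h1 : ∑ y : Fin v, (C x ∩ C y).card = k * k := by
    have h2 : ∀ y : Fin v, (C x ∩ C y).card = ∑ z ∈ C x, if z ∈ C y then 1 else 0 := by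
      intro y
      rw [← card_filter, Finset.filter_mem_eq_inter]
    rw [Finset.sum_congr rfl (fun y _ => h2 y), sum_comm]
    have h3 : ∀ z ∈ C x, ∑ y : Fin v, (if z ∈ C y then 1 else 0) = k := by
      intro z _
      rw [← h.size z, ← card_filter]
      congr 1
      ext y
      rw [mem_filter, h.symm y z]
      simp
    rw [Finset.sum_congr rfl h3, Finset.sum_const, h.size, smul_eq_mul]
  rw [← Finset.add_sum_erase _ _ (mem_univ x), inter_self, h.size] at h1
  have h4 : ∑ y ∈ univ.erase x, (C x ∩ C y).card = lam * (v - 1) := by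
    rw [Finset.sum_congr rfl (g := fun _ => lam)
      (fun y hy => h.inter x y (Finset.ne_of_mem_erase hy).symm), Finset.sum_const,
      card_erase_of_mem (mem_univ x), card_univ, Fintype.card_fin, smul_eq_mul, mul_comm]
  rw [h4] at h1
  omega

/-- the generalisation of Baer's theorem -/
theorem baer (h : Sy v k lam C) (hlam : 1 ≤ lam) (hne : (Ab C).Nonempty) :
    k ≤ lam * (Ab C).card := by
  classical
  obtain ⟨p, hp⟩ := hne
  have hpp : p ∈ C p := (mem_filter.1 hp).2
  have hv : 1 ≤ v := by
    have := p.2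
    omega
  have hcount := count h hv
  rcases Nat.even_or_odd (lam * k) with he | ho
  · -- each block through `p`, except that of `p`, contains a further absolute point
    have h1 : ∀ x ∈ (C p).erase p, 1 ≤ ((C x ∩ Ab C).erase p).card := by
      intro x hx
      rw [mem_erase] at hx
      obtain ⟨hxp, hx⟩ := hx
      have hpx : p ∈ C x := (h.symm p x).1 hx
      by_cases hxx : x ∈ C x
      · refine card_pos.2 ⟨x, ?_⟩
        rw [mem_erase, mem_inter, Ab, mem_filter]
        exact ⟨hxp, hxx, mem_univ _, hxx⟩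
      · have h2 := parity h hxx
        rw [Nat.even_iff] at he
        have h3 : p ∈ C x ∩ Ab C := mem_inter.2 ⟨hpx, hp⟩
        rw [card_erase_of_mem h3]
        have h4 : 0 < (C x ∩ Ab C).card := card_pos.2 ⟨p, h3⟩
        omega
    have h5 : ∑ x ∈ C p, ((C x ∩ Ab C).erase p).card = lam * ((Ab C).card - 1) := by
      have h6 : ∀ x ∈ C p, ((C x ∩ Ab C).erase p).card =
          ∑ z ∈ (Ab C).erase p, if z ∈ C x then 1 else 0 := by
        intro x _
        rw [← card_filter]
        congr 1
        ext z
        simp only [mem_erase, mem_inter, mem_filter]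
        tauto
      rw [Finset.sum_congr rfl h6, sum_comm]
      have h7 : ∀ z ∈ (Ab C).erase p, ∑ x ∈ C p, (if z ∈ C x then 1 else 0) = lam := by
        intro z hz
        rw [← h.inter p z (Finset.ne_of_mem_erase hz).symm, ← card_filter]
        congr 1
        ext x
        rw [mem_filter, mem_inter, h.symm x z]
      rw [Finset.sum_congr rfl h7, Finset.sum_const, card_erase_of_mem hp, smul_eq_mul, mul_comm]
    have h8 : k - 1 ≤ ∑ x ∈ C p, ((C x ∩ Ab C).erase p).card := by
      rw [← Finset.add_sum_erase _ _ hpp]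
      have h9 := Finset.sum_le_sum h1
      rw [Finset.sum_const, card_erase_of_mem hpp, h.size, smul_eq_mul, mul_one] at h9
      omega
    rw [h5] at h8
    have h10 : 1 ≤ (Ab C).card := card_pos.2 ⟨p, hp⟩
    obtain ⟨u, hu⟩ : ∃ u, (Ab C).card = u + 1 := ⟨(Ab C).card - 1, by omega⟩
    rw [hu, Nat.add_sub_cancel] at h8
    rw [hu, Nat.mul_add, Nat.mul_one]
    omega
  · -- every block contains an absolute point
    have h1 : ∀ x : Fin v, 1 ≤ (C x ∩ Ab C).card := by
      intro x
      by_cases hxx : x ∈ C x
      · exact card_pos.2 ⟨x, mem_inter.2 ⟨hxx, mem_filter.2 ⟨mem_univ _, hxx⟩⟩⟩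
      · have h2 := parity h hxx
        rw [Nat.odd_iff] at ho
        omega
    have h3 : ∑ x : Fin v, (C x ∩ Ab C).card = k * (Ab C).card := by
      have h4 : ∀ x : Fin v, (C x ∩ Ab C).card = ∑ z ∈ Ab C, if z ∈ C x then 1 else 0 := by
        intro x
        rw [← card_filter, Finset.filter_mem_eq_inter, inter_comm]
      rw [Finset.sum_congr rfl (fun y _ => h4 y), sum_comm]
      have h5 : ∀ z ∈ Ab C, ∑ x : Fin v, (if z ∈ C x then 1 else 0) = k := by
        intro z _
        rw [← h.size z, ← card_filter]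
        congr 1
        ext y
        rw [mem_filter, h.symm y z]
        simp
      rw [Finset.sum_congr rfl h5, Finset.sum_const, smul_eq_mul, mul_comm]
    have h6 : v ≤ k * (Ab C).card := by
      rw [← h3]
      have := Finset.sum_le_sum (s := univ) (fun x _ => h1 x)
      simpa using this
    obtain ⟨w, rfl⟩ : ∃ w, v = w + 1 := ⟨v - 1, by omega⟩
    rw [Nat.add_sub_cancel] at hcount
    by_contra hcon
    push Not at hcon
    have h7 : lam * (w + 1) ≤ lam * (k * (Ab C).card) := Nat.mul_le_mul_left _ h6
    have h8 : lam * (k * (Ab C).card) = k * (lam * (Ab C).card) := by ring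
    have h9 : k * (lam * (Ab C).card + 1) ≤ k * k := Nat.mul_le_mul_left _ hcon
    rw [Nat.mul_add, Nat.mul_one] at h9 h7
    omega

end

end Pool.Agent.Y344.HD
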