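import Pool.Agent.Y344.HD.Pol

set_option autoImplicit false

/-!
# Polarities of symmetric designs: the trace
-/

namespace Pool.Agent.Y344.HD

open Finset Matrix

/-- the trace of a real symmetric square root of `n` -/
theorem trace_root {v : ℕ} (M : Matrix (Fin v) (Fin v) ℝ) (hM : M.IsHermitian) (n : ℝ)
    (hn : 0 ≤ n) (h : M * M = n • (1 : Matrix (Fin v) (Fin v) ℝ)) :
    ∃ t : ℤ, M.trace = Real.sqrt n * t := by
  classical
  have hev : ∀ j, ∃ s : ℤ, hM.eigenvalues j = Real.sqrt n * s := by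
    intro j
    obtain ⟨w, hw⟩ : ∃ w : Fin v → ℝ, w = (hM.eigenvectorBasis j).ofLp := ⟨_, rfl⟩
    obtain ⟨μ, hμ⟩ : ∃ μ : ℝ, μ = hM.eigenvalues j := ⟨_, rfl⟩
    have h1 : M *ᵥ w = μ • w := by
      rw [hw, hμ]
      exact hM.mulVec_eigenvectorBasis j
    have h2 : (M * M) *ᵥ w = (μ * μ) • w := by
      rw [← Matrix.mulVec_mulVec, h1, Matrix.mulVec_smul, h1, smul_smul]
    rw [h, Matrix.smul_mulVec, Matrix.one_mulVec] at h2
    have hw0 : w ≠ 0 := by
      intro h0
      have h3 : hM.eigenvectorBasis j = 0 := by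
        ext i
        have := congrFun h0 i
        rw [hw] at this
        simpa using this
      exact hM.eigenvectorBasis.toBasis.ne_zero j (by simpa using h3)
    obtain ⟨i, hi⟩ : ∃ i, w i ≠ 0 := by
      by_contra hcon
      push Not at hcon
      exact hw0 (funext hcon)
    have h4 := congrFun h2 i
    simp only [Pi.smul_apply, smul_eq_mul] at h4
    have h5 : n = μ * μ := mul_right_cancel₀ hi h4
    have h6 : Real.sqrt n = |μ| := by rw [h5, Real.sqrt_mul_self_eq_abs]
    rw [← hμ, h6]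
    rcases abs_choice μ with h7 | h7
    · exact ⟨1, by rw [h7]; norm_num⟩
    · exact ⟨-1, by rw [h7]; norm_num⟩
  choose s hs using hev
  refine ⟨∑ j, s j, ?_⟩
  rw [hM.trace_eq_sum_eigenvalues]
  push_cast
  rw [Finset.mul_sum]
  refine Finset.sum_congr rfl fun j _ => ?_
  rw [hs j]
  simp

variable {v k lam : ℕ} {C : Fin v → Finset (Fin v)}

/-- the number of absolute points is `lam` up to a multiple of the square root of `k - lam` -/
theorem absolute_dvd (h : Sy v k lam C) (hkv : k < v) (hk : 1 ≤ k) :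
    ((k : ℤ) - lam) ∣ (((Ab C).card : ℤ) - lam) ^ 2 := by
  classical
  have hcount := count h (by omega)
  have hlk : lam < k := by
    by_contra hcon
    push Not at hcon
    have h1 : k * k ≤ lam * (v - 1) := Nat.mul_le_mul hcon (by omega)
    omega
  obtain ⟨A, hA⟩ : ∃ A : Matrix (Fin v) (Fin v) ℝ, A = fun x y => if y ∈ C x then 1 else 0 :=
    ⟨_, rfl⟩
  obtain ⟨J, hJ⟩ : ∃ J : Matrix (Fin v) (Fin v) ℝ, J = fun _ _ => 1 := ⟨_, rfl⟩
  obtain ⟨n, hn⟩ : ∃ n : ℝ, n = (k : ℝ) - lam := ⟨_, rfl⟩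
  have hn0 : 0 < n := by
    have : (lam : ℝ) < k := by exact_mod_cast hlk
    rw [hn]
    linarith
  obtain ⟨m, hm⟩ : ∃ m : ℝ, m = Real.sqrt n := ⟨_, rfl⟩
  have hmm : m * m = n := by rw [hm]; exact Real.mul_self_sqrt hn0.le
  have hv0 : (0 : ℝ) < v := by exact_mod_cast (by omega : 0 < v)
  have hAA : A * A = n • (1 : Matrix (Fin v) (Fin v) ℝ) + (lam : ℝ) • J := by
    ext x y
    rw [Matrix.mul_apply, Matrix.add_apply, Matrix.smul_apply, Matrix.smul_apply, hA, hJ]
    simp only [smul_eq_mul, mul_one]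
    have h1 : ∀ z : Fin v, (if z ∈ C x then (1 : ℝ) else 0) * (if y ∈ C z then 1 else 0) =
        if z ∈ C x ∩ C y then 1 else 0 := by
      intro z
      have h3 : y ∈ C z ↔ z ∈ C y := h.symm z y
      by_cases h1 : z ∈ C x <;> by_cases h2 : z ∈ C y <;> simp [h1, h2, h3]
    rw [Finset.sum_congr rfl (fun z _ => h1 z), ← Finset.sum_filter, Finset.sum_const]
    have h2 : univ.filter (fun z : Fin v => z ∈ C x ∩ C y) = C x ∩ C y := by
      ext z
      simp
    rw [h2, nsmul_eq_mul, mul_one]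
    by_cases hxy : x = y
    · subst hxy
      rw [inter_self, h.size, Matrix.one_apply_eq, hn]
      ring
    · rw [h.inter x y hxy, Matrix.one_apply_ne hxy]
      ring
  have hAJ : A * J = (k : ℝ) • J := by
    ext x y
    rw [Matrix.mul_apply, Matrix.smul_apply, hA, hJ]
    simp only [mul_one, smul_eq_mul]
    rw [← Finset.sum_filter, Finset.sum_const, nsmul_eq_mul, mul_one]
    have h2 : univ.filter (fun z : Fin v => z ∈ C x) = C x := by
      ext z
      simp
    rw [h2, h.size]
  have hJA : J * A = (k : ℝ) • J := by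
    ext x y
    rw [Matrix.mul_apply, Matrix.smul_apply, hA, hJ]
    simp only [mul_one, one_mul, smul_eq_mul]
    rw [← Finset.sum_filter, Finset.sum_const, nsmul_eq_mul, mul_one]
    have h2 : univ.filter (fun z : Fin v => y ∈ C z) = C y := by
      ext z
      simp [h.symm z y]
    rw [h2, h.size]
  have hJJ : J * J = (v : ℝ) • J := by
    ext x y
    rw [Matrix.mul_apply, Matrix.smul_apply, hJ]
    simp
  obtain ⟨c, hc⟩ : ∃ c : ℝ, c = (k - m) / v := ⟨_, rfl⟩
  have hcv : c * v = k - m := by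
    rw [hc]
    field_simp
  have hkk : (k : ℝ) * k = lam * v + n := by
    have h1 : (k : ℝ) * k = lam * ((v - 1 : ℕ) : ℝ) + k := by exact_mod_cast hcount
    rw [Nat.cast_sub (by omega)] at h1
    push_cast at h1
    rw [hn]
    linarith
  have hMM : (A - c • J) * (A - c • J) = n • (1 : Matrix (Fin v) (Fin v) ℝ) := by
    rw [sub_mul, mul_sub, mul_sub, hAA, Matrix.mul_smul, hAJ, Matrix.smul_mul, hJA,
      Matrix.smul_mul, Matrix.mul_smul, hJJ]
    have h1 : (lam : ℝ) - c * k - c * k + c * c * v = 0 := by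
      have h2 : (v : ℝ) * ((lam : ℝ) - c * k - c * k + c * c * v) = 0 := by
        have h3 : (v : ℝ) * ((lam : ℝ) - c * k - c * k + c * c * v) =
            lam * v - 2 * (c * v) * k + (c * v) * (c * v) := by ring
        rw [h3, hcv]
        nlinarith
      exact (mul_eq_zero.1 h2).resolve_left hv0.ne'
    ext x y
    simp only [Matrix.sub_apply, Matrix.add_apply, Matrix.smul_apply, smul_eq_mul]
    have h4 : n * (1 : Matrix (Fin v) (Fin v) ℝ) x y + lam * J x y - c * (k * J x y) -
        (c * (k * J x y) - c * (c * (v * J x y))) =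
        n * (1 : Matrix (Fin v) (Fin v) ℝ) x y +
          ((lam : ℝ) - c * k - c * k + c * c * v) * J x y := by ring
    rw [h4, h1, zero_mul, add_zero]
  have hH : (A - c • J).IsHermitian := by
    ext x y
    rw [Matrix.conjTranspose_apply, hA, hJ]
    simp only [Matrix.sub_apply, Matrix.smul_apply, smul_eq_mul, star_trivial]
    simp only [h.symm y x]
  obtain ⟨t, ht⟩ := trace_root _ hH n hn0.le hMM
  rw [Matrix.trace_sub, Matrix.trace_smul] at ht
  have htA : A.trace = ((Ab C).card : ℝ) := by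
    rw [Matrix.trace, hA]
    simp only [Matrix.diag_apply]
    rw [← Finset.sum_filter, Finset.sum_const, nsmul_eq_mul, mul_one]
    rfl
  have htJ : J.trace = v := by
    rw [Matrix.trace, hJ]
    simp
  rw [htA, htJ, smul_eq_mul, hcv, ← hm] at ht
  have h1 : ((Ab C).card : ℝ) - k = m * ((t : ℝ) - 1) := by linarith
  have h2 : (((Ab C).card : ℝ) - k) ^ 2 = n * ((t : ℝ) - 1) ^ 2 := by
    rw [h1, mul_pow, pow_two m, hmm]
  rw [hn] at h2
  have h3 : (((Ab C).card : ℤ) - k) ^ 2 = ((k : ℤ) - lam) * (t - 1) ^ 2 := by exact_mod_cast h2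
  have h4 : (((Ab C).card : ℤ) - lam) ^ 2 = (((Ab C).card : ℤ) - k) ^ 2 +
      ((k : ℤ) - lam) * (2 * ((Ab C).card : ℤ) - k - lam) := by ring
  rw [h4, h3]
  exact dvd_add (Dvd.intro _ rfl) (Dvd.intro _ rfl)

end Pool.Agent.Y344.HD
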